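import Pool.Agent.W907.SM.Stmts

/-!
# CONVA and CONVB: top cycles of line complexes as scalar functions (characteristic 2)
-/

namespace Pool.Agent.W632.SM

open Pool.Agent.W907.SG Pool.Agent.W907.SM

section basic

variable {n : ℕ} {V : Type} {r : V → V → Prop} {rk : V → Fin n}

theorem rk_ne (hr : ∀ x y, r x y → rk x < rk y) {u v : V} (h : (cmp r).Adj u v) : rk u ≠ rk v := by
  unfold Pool.Agent.W907.SM.cmp at h
  rw [SimpleGraph.fromRel_adj] at h
  rcases h.2 with h | h
  · exact (hr _ _ h).ne
  · exact (hr _ _ h).ne'

theorem injOn_clique (hr : ∀ x y, r x y → rk x < rk y) {T : Finset V} (hT : (cmp r).IsClique (T : Set V)) :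
    Set.InjOn rk (T : Set V) := by
  intro u hu v hv huv
  by_contra hne
  exact rk_ne hr (hT hu hv hne) huv

theorem card_of_ty (hr : ∀ x y, r x y → rk x < rk y) {N : Set V} {C : Finset (Fin n)} {T : Finset V}
    (h : ty r rk N C T) : T.card = C.card := by
  rw [← h.2.2, Finset.card_image_of_injOn (injOn_clique hr h.1)]

theorem ty_of {N : Set V} (hr : ∀ x y, r x y → rk x < rk y) {C : Finset (Fin n)} {T : Finset V}
    (h1 : (cmp r).IsClique (T : Set V)) (h2 : (T : Set V) ⊆ N ∩ {v | rk v ∈ C}) (h3 : T.card = C.card) :
    ty r rk N C T := by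
  refine ⟨h1, fun x hx => (h2 hx).1, ?_⟩
  apply Finset.eq_of_subset_of_card_le
  · intro c hc
    obtain ⟨t, ht, rfl⟩ := Finset.mem_image.1 hc
    exact (h2 (Finset.mem_coe.2 ht)).2
  · rw [Finset.card_image_of_injOn (injOn_clique hr h1), h3]

theorem ty_insert [DecidableEq V] (hr : ∀ x y, r x y → rk x < rk y) {N : Set V} {C : Finset (Fin n)} {T : Finset V}
    {v : V} (hv : v ∉ T) (h : ty r rk N C (insert v T)) : rk v ∈ C ∧ ty r rk N (C.erase (rk v)) T := by
  obtain ⟨h1, h2, h3⟩ := h
  have hinj := injOn_clique hr h1
  refine ⟨?_, ?_, ?_, ?_⟩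
  · rw [← h3]; exact Finset.mem_image_of_mem _ (Finset.mem_insert_self _ _)
  · exact h1.subset (by simp)
  · exact fun x hx => h2 (by simp [Finset.mem_coe.1 hx])
  · rw [← h3, Finset.image_insert, Finset.erase_insert_eq_erase, Finset.erase_eq_of_notMem]
    intro hc
    obtain ⟨t, ht, e⟩ := Finset.mem_image.1 hc
    have := hinj (by simp [ht]) (by simp) e
    exact hv (this ▸ ht)

theorem erase_inj' {C : Finset (Fin n)} {a b : Fin n} (ha : a ∈ C) (h : C.erase a = C.erase b) : a = b := by
  by_contra hne
  have : a ∈ C.erase b := Finset.mem_erase.2 ⟨hne, ha⟩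
  rw [← h] at this
  exact (Finset.notMem_erase a C) this

end basic

section bd

variable {V : Type} [Fintype V] [LinearOrder V] {K : Type} [Field K] [CharP K 2] {C : Type}

theorem bdd_apply (c : Finset V → (C → Bool) → K) (T : Finset V) (ε : C → Bool) :
    bdd c T ε = ∑ v ∈ Tᶜ, c (insert v T) ε := by
  unfold bdd
  rw [Finset.sum_apply]
  refine Finset.sum_congr rfl fun v _ => ?_
  rcases sg_eq_or v T with h | h
  · rw [h]; simp
  · rw [h]; simp [CharTwo.neg_eq]

end bd

section

variable {n : ℕ} {V : Type} [Fintype V] [LinearOrder V] {K : Type} [Field K] [CharP K 2]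
  {r : V → V → Prop} {rk : V → Fin n} {τ : V → K} {N : Set V}

/-- boundary components of line chains of top type -/
theorem comp (hr : ∀ x y, r x y → rk x < rk y) {D C : Finset (Fin n)}
    {y : Finset V → (Fin n → Bool) → K} {i : ℕ} (hi : i = C.card)
    (hy : IsLC (cmp r) rk (D : Set (Fin n)) τ (N ∩ {v | rk v ∈ C}) i y) :
    (∀ T, ¬ ty r rk N C T → y T = 0) ∧
    ∀ c ∈ C, ∀ T', ty r rk N (C.erase c) T' → ∀ ε : Fin n → Bool, c ∈ D → ε c = false →
      ∑ v ∈ T'ᶜ, τ v * y (insert v T') ε = bdd y T' (Function.update ε c true) := by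
  have h0 : ∀ T, ¬ ty r rk N C T → y T = 0 := by
    intro T hT
    apply hy.supp
    rintro ⟨h1, h2, h3⟩
    exact hT (ty_of hr h1 h2 (h3.trans hi))
  refine ⟨h0, ?_⟩
  intro c hc T' hT' ε hcD hε
  rw [bdd_apply]
  refine Finset.sum_congr rfl fun v hv => ?_
  have hvT : v ∉ T' := Finset.mem_compl.1 hv
  by_cases hty : ty r rk N C (insert v T')
  · obtain ⟨h1, h2⟩ := ty_insert hr hvT hty
    have hrk : rk v = c := erase_inj' h1 (h2.2.2.symm.trans hT'.2.2)
    have := hy.line (insert v T') v (Finset.mem_insert_self _ _) (by rw [hrk]; exact hcD) ε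
    rw [hrk] at this
    rw [this]
    congr 2
    funext b
    by_cases hb : b = c
    · subst hb; simp [hε]
    · simp [hb]
  · rw [h0 _ hty]; simp

end

theorem conva : M_CONVA := by
  intro n V K _ _ _ _ r rk τ N D S s hr hDS hs hEX z hz
  classical
  have hsD : s ∉ D := fun h => (Finset.disjoint_left.1 hDS h) hs
  have hDe : D ∪ S.erase s = (D ∪ S).erase s := by
    rw [Finset.erase_union_distrib, Finset.erase_eq_of_notMem hsD]
  set C := D ∪ S with hC
  have hcard : C.card = D.card + S.card := Finset.card_union_of_disjoint hDS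
  have hsC : s ∈ C := Finset.mem_union_right _ hs
  have hpos : 0 < S.card := Finset.card_pos.2 ⟨s, hs⟩
  obtain ⟨i, hi⟩ : ∃ i, i + 1 = D.card + S.card := ⟨D.card + S.card - 1, by omega⟩
  have hEX := hEX i hi
  let c : Finset V → (Fin n → Bool) → K := fun T ε =>
    if (∀ b ∉ D, ε b = false) then (∏ t ∈ T.filter (fun t => ε (rk t) = true), τ t) * z T else 0
  have hcz : ∀ T, z T = 0 → c T = 0 := by
    intro T h
    funext ε
    show (if _ then _ else _) = _
    rw [h]; simp
  have hcty : ∀ T, ¬ ty r rk N (C.erase s) T → z T = 0 := by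
    intro T h
    exact hz.1 T (by rw [hDe]; exact h)
  have hLC : IsLC (cmp r) rk (D : Set (Fin n)) τ (N ∩ {v | rk v ∈ C}) i c := by
    constructor
    · intro T hT
      apply hcz
      apply hcty
      intro h
      apply hT
      refine ⟨h.1, fun x hx => ⟨h.2.1 hx, ?_⟩, ?_⟩
      · have : rk x ∈ C.erase s := by
          rw [← h.2.2]; exact Finset.mem_image_of_mem _ (Finset.mem_coe.1 hx)
        exact Finset.mem_of_mem_erase this
      · rw [card_of_ty hr h, Finset.card_erase_of_mem hsC, hcard]; omega
    · intro T t ht htD ε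
      by_cases hty : ty r rk N (C.erase s) T
      · have hinj := injOn_clique hr hty.1
        have e1 : ∀ x : Bool, (∀ b ∉ D, Function.update ε (rk t) x b = false) ↔ (∀ b ∉ D, ε b = false) := by
          intro x
          refine forall_congr' fun b => ?_
          refine forall_congr' fun hb => ?_
          have : b ≠ rk t := fun h => hb (h ▸ htD)
          rw [Function.update_of_ne this]
        show (if _ then _ else _) = τ t * (if _ then _ else _)
        by_cases hcond : (∀ b ∉ D, ε b = false)
        · rw [if_pos ((e1 true).2 hcond), if_pos ((e1 false).2 hcond), ← mul_assoc]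
          congr 1
          have hn : t ∉ T.filter (fun u => Function.update ε (rk t) false (rk u) = true) := by
            simp
          rw [← Finset.prod_insert hn]
          apply Finset.prod_congr ?_ (fun _ _ => rfl)
          ext u
          simp only [Finset.mem_filter, Finset.mem_insert]
          by_cases hu : u = t
          · subst hu; simp [ht]
          · constructor
            · rintro ⟨h1, h2⟩
              right
              refine ⟨h1, ?_⟩
              have : rk u ≠ rk t := fun e => hu (hinj (Finset.mem_coe.2 h1) (Finset.mem_coe.2 ht) e)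
              rw [Function.update_of_ne this] at h2 ⊢
              exact h2
            · rintro (h | ⟨h1, h2⟩)
              · exact absurd h hu
              · refine ⟨h1, ?_⟩
                have : rk u ≠ rk t := fun e => hu (hinj (Finset.mem_coe.2 h1) (Finset.mem_coe.2 ht) e)
                rw [Function.update_of_ne this] at h2 ⊢
                exact h2
        · rw [if_neg (fun h => hcond ((e1 true).1 h)), if_neg (fun h => hcond ((e1 false).1 h)), mul_zero]
      · rw [hcz T (hcty T hty)]; simp
  have hbd : bdd c = 0 := by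
    funext T' ε
    rw [bdd_apply]
    show _ = (0 : K)
    by_cases hcond : (∀ b ∉ D, ε b = false)
    swap
    · apply Finset.sum_eq_zero
      intro v _
      show (if _ then _ else _) = _
      rw [if_neg hcond]
    by_cases hall : ∀ v ∈ T'ᶜ, z (insert v T') = 0
    · apply Finset.sum_eq_zero
      intro v hv
      rw [hcz _ (hall v hv)]; rfl
    · push Not at hall
      obtain ⟨v₀, hv₀, hz₀⟩ := hall
      have hty₀ : ty r rk N (C.erase s) (insert v₀ T') := by
        by_contra h; exact hz₀ (hcty _ h)
      obtain ⟨hc₀, hT'⟩ := ty_insert hr (Finset.mem_compl.1 hv₀) hty₀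
      set c₀ := rk v₀ with hc₀def
      have hrkv : ∀ v ∈ T'ᶜ, z (insert v T') ≠ 0 → rk v = c₀ := by
        intro v hv hzv
        have htyv : ty r rk N (C.erase s) (insert v T') := by
          by_contra h; exact hzv (hcty _ h)
        obtain ⟨h1, h2⟩ := ty_insert hr (Finset.mem_compl.1 hv) htyv
        exact erase_inj' h1 (h2.2.2.symm.trans hT'.2.2)
      have hterm : ∀ v ∈ T'ᶜ, c (insert v T') ε =
          (∏ t ∈ T'.filter (fun t => ε (rk t) = true), τ t) * ((if ε c₀ = true then τ v else 1) * z (insert v T')) := by
        intro v hv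
        by_cases hzv : z (insert v T') = 0
        · rw [hcz _ hzv, hzv]; simp
        · have hv' := hrkv v hv hzv
          show (if _ then _ else _) = _
          rw [if_pos hcond, Finset.filter_insert, hv']
          by_cases he : ε c₀ = true
          · rw [if_pos he, if_pos he, Finset.prod_insert]
            · ring
            · intro h
              exact (Finset.mem_compl.1 hv) (Finset.mem_of_mem_filter _ h)
          · rw [if_neg he, if_neg he, one_mul]
      rw [Finset.sum_congr rfl hterm, ← Finset.mul_sum]
      have hc₀' : c₀ ∈ D ∪ S.erase s := by rw [hDe]; exact hc₀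
      have hz2 := hz.2 c₀ hc₀' T' (by rw [hDe]; exact hT')
      by_cases he : ε c₀ = true
      · have hcD : c₀ ∈ D := by
          by_contra h
          rw [hcond c₀ h] at he
          exact Bool.noConfusion he
        have := hz2.2 hcD
        simp only [he, if_true]
        rw [this, mul_zero]
      · simp only [if_neg he, one_mul]
        rw [hz2.1, mul_zero]
  obtain ⟨y, hy, hyc⟩ := hEX c hLC hbd
  have hcomp := comp (D := D) hr (C := C) (i := i + 1) (by rw [hcard, hi]) hy
  have hc0 : ∀ T ε, (∀ b ∉ D, ε b = false) →
      c T ε = (∏ t ∈ T.filter (fun t => ε (rk t) = true), τ t) * z T := by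
    intro T ε h
    show (if _ then _ else _) = _
    rw [if_pos h]
  refine ⟨fun T => y T (fun _ => false), ?_, ?_, ?_⟩
  · intro T hT
    show y T (fun _ => false) = 0
    rw [hcomp.1 T hT]; rfl
  · intro T' hT'
    show ∑ v ∈ T'ᶜ, y (insert v T') (fun _ => false) = z T'
    rw [← bdd_apply, hyc, hc0 _ _ (fun _ _ => rfl)]
    simp
  · intro c₁ hc₁ hne T' hT'
    have hzT' : z T' = 0 := by
      apply hcty
      intro h
      exact hne (erase_inj' hc₁ (hT'.2.2.symm.trans h.2.2))
    constructor
    · show ∑ v ∈ T'ᶜ, y (insert v T') (fun _ => false) = 0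
      rw [← bdd_apply, hyc, hcz _ hzT']; rfl
    · intro hcD
      show ∑ v ∈ T'ᶜ, τ v * y (insert v T') (fun _ => false) = 0
      rw [hcomp.2 c₁ hc₁ T' hT' (fun _ => false) hcD rfl, hyc, hcz _ hzT']; rfl

theorem convb : M_CONVB := by
  intro n V K _ _ _ _ r rk τ N D hr hTZ z hz hbz
  classical
  have hcomp := comp (D := D) hr (C := D) (i := D.card) rfl hz
  have hDu : D ∪ ∅ = D := Finset.union_empty D
  -- the components with all bits in `D` false
  have hx : ∀ ε : Fin n → Bool, (∀ b ∈ D, ε b = false) → ∀ T, z T ε = 0 := by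
    intro ε hε T
    have : (fun T => z T ε) = 0 := by
      apply hTZ
      refine ⟨?_, ?_⟩
      · intro T hT
        rw [hDu] at hT
        show z T ε = 0
        rw [hcomp.1 T hT]; rfl
      · rw [hDu]
        intro c hc T' hT'
        constructor
        · show ∑ v ∈ T'ᶜ, z (insert v T') ε = 0
          rw [← bdd_apply, hbz]; rfl
        · intro hcD
          show ∑ v ∈ T'ᶜ, τ v * z (insert v T') ε = 0
          rw [hcomp.2 c hc T' hT' ε hcD (hε c hc), hbz]; rfl
    exact congrFun this T
  have key : ∀ (k : ℕ) (T : Finset V) (ε : Fin n → Bool), (D.filter (fun b => ε b = true)).card = k → z T ε = 0 := by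
    intro k
    induction k with
    | zero =>
      intro T ε h
      apply hx
      intro b hb
      have h' := Finset.card_eq_zero.1 h
      by_contra hne
      have : b ∈ D.filter (fun b => ε b = true) := Finset.mem_filter.2 ⟨hb, by simpa using hne⟩
      rw [h'] at this
      simp at this
    | succ k ih =>
      intro T ε h
      by_cases hty : ty r rk N D T
      · obtain ⟨b, hb⟩ : (D.filter (fun b => ε b = true)).Nonempty := by
          rw [← Finset.card_pos, h]; omega
        obtain ⟨hbD, hbt⟩ := Finset.mem_filter.1 hb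
        have hbI : b ∈ T.image rk := by rw [hty.2.2]; exact hbD
        obtain ⟨t, ht, rfl⟩ := Finset.mem_image.1 hbI
        have hl := hz.line T t ht hbD ε
        have e1 : Function.update ε (rk t) true = ε := by
          rw [← hbt]; exact Function.update_eq_self _ _
        rw [e1] at hl
        rw [hl, ih T (Function.update ε (rk t) false), mul_zero]
        have : D.filter (fun b => Function.update ε (rk t) false b = true) =
            (D.filter (fun b => ε b = true)).erase (rk t) := by
          ext b
          simp only [Finset.mem_filter, Finset.mem_erase]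
          by_cases hb' : b = rk t
          · subst hb'; simp
          · simp [hb']
        rw [this, Finset.card_erase_of_mem hb, h]; rfl
      · rw [hcomp.1 T hty]; rfl
  funext T ε
  exact key _ T ε rfl

end Pool.Agent.W632.SM
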